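import Pool.Agent.Helper85.QT.St2

/-!
# Project QT (MP_d112a4_gt), module FUL: the annulus fills the cover up to bounded collars
-/

open MeasureTheory Set Filter Topology Complex

namespace Pool.Agent.Helper75.QT

open Pool.Agent.Helper85.QT Pool.Agent.Helper86.QA

/-- **FUL** -/
theorem hFUL (hHN1 : Pool.Agent.Helper85.QT.StHN1) (hHN2 : Pool.Agent.Helper85.QT.StHN2) :
    Pool.Agent.Helper85.QT.StFUL := by
  intro C3 hC3
  obtain ⟨C, c, hC, -, H⟩ := hHN2
  refine ⟨18 * C + 5 + C3, by linarith, ?_⟩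
  intro Γ _ ρ A B α lam M G m φ hA hm v hv
  have hHN : HN m φ := ⟨hA.ph, hA.pi, hA.p1⟩
  have hm4 : 4 ≤ m := by linarith
  obtain ⟨-, κ, hκ, -⟩ := H m φ hm4 hHN
  have hM := hA.fu
  -- the imaginary part of `κ`
  have im_le : ∀ w : ℂ, 2 ≤ dd m w → |(φ w).im - w.im - κ.im| ≤ C := by
    intro w hw
    have h1 := Complex.abs_im_le_norm (φ w - w - κ)
    rw [Complex.sub_im, Complex.sub_im] at h1
    exact h1.trans (hκ w hw)
  have hlow : -2 - C < κ.im := by
    have hw : (⟨0, 2⟩ : ℂ) ∈ Sm m := ⟨by norm_num, by simp only; linarith⟩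
    have hd : 2 ≤ dd m (⟨0, 2⟩ : ℂ) := by
      unfold dd; simp only; exact le_min le_rfl (by linarith)
    have h1 := abs_le.1 (im_le _ hd)
    have h2 := (hA.pm hw).1
    simp only at h1
    linarith [h1.2]
  have hup : κ.im < C3 + 2 + C := by
    have hw : (⟨0, m - 2⟩ : ℂ) ∈ Sm m := ⟨by simp only; linarith, by simp only; linarith⟩
    have hd : 2 ≤ dd m (⟨0, m - 2⟩ : ℂ) := by
      unfold dd; simp only; exact le_min (by linarith) (by linarith)
    have h1 := abs_le.1 (im_le _ hd)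
    have h2 := (hA.pm hw).2
    simp only at h1
    linarith [h1.1]
  have hv1 : 18 * C + 5 + C3 ≤ v.im := hv.trans (min_le_left _ _)
  have hv2 : 18 * C + 5 + C3 ≤ M - v.im := hv.trans (min_le_right _ _)
  have hr : 17 * C + 2 ≤ dd m (v - κ) := by
    unfold dd
    rw [Complex.sub_im]
    exact le_min (by linarith) (by linarith)
  have h2 : 2 ≤ dd m (v - κ) := by linarith
  have hn := hκ (v - κ) h2
  have hmem : v ∈ Metric.ball (φ (v - κ)) ((17 * C + 2) / 16) := by
    rw [Metric.mem_ball, dist_comm, dist_eq_norm]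
    have e : φ (v - κ) - v = φ (v - κ) - (v - κ) - κ := by ring
    rw [e]
    linarith
  obtain ⟨w, hw, hwv⟩ := (hHN1 m φ hHN).2.2 (v - κ) (17 * C + 2) (by linarith) hr hmem
  refine ⟨w, ?_, hwv⟩
  rw [Metric.mem_ball, dist_eq_norm] at hw
  have h3 := Complex.abs_im_le_norm (w - (v - κ))
  rw [Complex.sub_im] at h3
  have h4 := abs_le.1 h3
  have h5 : dd m (v - κ) ≤ (v - κ).im := min_le_left _ _
  have h6 : dd m (v - κ) ≤ m - (v - κ).im := min_le_right _ _
  exact ⟨by linarith [h4.1], by linarith [h4.2]⟩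

end Pool.Agent.Helper75.QT
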