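import Pool.Agent.Helper88.QT.St1
import Pool.Agent.Helper85.QT.St1

/-!
# Project QT (MP_d112a4_gt), module CHF: the distance in cylindrical coordinates
-/

set_option autoImplicit false

open MeasureTheory Matrix Set Topology
open scoped ENNReal ComplexConjugate

namespace Pool.Agent.Helper75.QT

open Pool.Agent.Helper88.QT Pool.Agent.Helper85.QT Pool.Agent.Helper86.QA

private theorem NN_pos {x : Pt} (hx : x ∈ up) : 0 < NN x := by
  have h : 0 < x.2 := hx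
  unfold NN
  positivity

private theorem sqrt_cR {x : Pt} (hx : x ∈ up) :
    Real.sqrt (cR x ^ 2 - 1) = ‖x.1‖ / x.2 := by
  have h : 0 < x.2 := hx
  have e : cR x ^ 2 - 1 = (‖x.1‖ / x.2) ^ 2 := by
    unfold cR
    rw [div_pow, Real.sq_sqrt (NN_pos hx).le, div_pow]
    unfold NN
    field_simp
    ring
  rw [e, Real.sqrt_sq (by positivity)]

private theorem norm_rd {x : Pt} (h0 : x.1 ≠ 0) : ‖rd x‖ = Real.sqrt (NN x) := by
  have hn : 0 < ‖x.1‖ := norm_pos_iff.2 h0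
  unfold rd
  rw [norm_mul, Complex.norm_real, Real.norm_eq_abs, abs_of_nonneg (by positivity)]
  field_simp

private theorem cosh_part {x y : Pt} (hx : x ∈ up) (hy : y ∈ up) (hx0 : x.1 ≠ 0) (hy0 : y.1 ≠ 0) :
    cR x * cR y * Real.cosh (Complex.log (rd x / rd y)).re =
      (NN x + NN y) / (2 * x.2 * y.2) := by
  have h1 : 0 < x.2 := hx
  have h2 : 0 < y.2 := hy
  have hN := NN_pos hx
  have hN' := NN_pos hy
  have s1 := Real.sqrt_pos.2 hN
  have s2 := Real.sqrt_pos.2 hN'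
  have q1 := Real.sq_sqrt hN.le
  have q2 := Real.sq_sqrt hN'.le
  rw [Complex.log_re, norm_div, norm_rd hx0, norm_rd hy0, Real.cosh_log (by positivity)]
  unfold cR
  rw [← q1, ← q2]
  rw [Real.sqrt_sq s1.le, Real.sqrt_sq s2.le]
  field_simp

private theorem cos_part {x y : Pt} (hx : x ∈ up) (hy : y ∈ up) (hx0 : x.1 ≠ 0) (hy0 : y.1 ≠ 0) :
    ‖x.1‖ / x.2 * (‖y.1‖ / y.2) * Real.cos (Complex.log (rd x / rd y)).im =
      (x.1 * conj y.1).re / (x.2 * y.2) := by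
  have h1 : 0 < x.2 := hx
  have h2 : 0 < y.2 := hy
  have s1 := Real.sqrt_pos.2 (NN_pos hx)
  have s2 := Real.sqrt_pos.2 (NN_pos hy)
  have n1 : 0 < ‖x.1‖ := norm_pos_iff.2 hx0
  have n2 : 0 < ‖y.1‖ := norm_pos_iff.2 hy0
  have e : rd x / rd y = (((Real.sqrt (NN x) / ‖x.1‖) / (Real.sqrt (NN y) / ‖y.1‖) /
      ‖y.1‖ ^ 2 : ℝ) : ℂ) * (x.1 * conj y.1) := by
    have hyy : (‖y.1‖ : ℂ) ^ 2 = y.1 * conj y.1 := (Complex.mul_conj' y.1).symm
    have hc : conj y.1 ≠ 0 := (map_ne_zero _).2 hy0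
    have r2 : ((Real.sqrt (NN y) / ‖y.1‖ : ℝ) : ℂ) ≠ 0 := by
      exact Complex.ofReal_ne_zero.2 (by positivity)
    unfold rd
    rw [Complex.ofReal_div _ (‖y.1‖ ^ 2), Complex.ofReal_div _ (Real.sqrt (NN y) / ‖y.1‖),
      Complex.ofReal_pow, hyy]
    field_simp
  have hr : 0 < (Real.sqrt (NN x) / ‖x.1‖) / (Real.sqrt (NN y) / ‖y.1‖) / ‖y.1‖ ^ 2 := by
    positivity
  have hne : x.1 * conj y.1 ≠ 0 := mul_ne_zero hx0 ((map_ne_zero _).2 hy0)
  rw [Complex.log_im, e, Complex.arg_real_mul _ hr, Complex.cos_arg hne, norm_mul,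
    RCLike.norm_conj]
  field_simp

private theorem ch_eq (x y : Pt) :
    ch x y = (NN x + NN y) / (2 * x.2 * y.2) - (x.1 * conj y.1).re / (x.2 * y.2) := by
  unfold ch NN
  rw [← Complex.normSq_eq_norm_sq, Complex.normSq_sub, Complex.normSq_eq_norm_sq,
    Complex.normSq_eq_norm_sq]
  ring

private theorem one {x y : Pt} (hx : x ∈ up) (hy : y ∈ up) (hx0 : x.1 ≠ 0) (hy0 : y.1 ≠ 0) :
    ch x y = cR x * cR y * Real.cosh (Complex.log (rd x / rd y)).re -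
      Real.sqrt (cR x ^ 2 - 1) * Real.sqrt (cR y ^ 2 - 1) *
        Real.cos (Complex.log (rd x / rd y)).im := by
  rw [sqrt_cR hx, sqrt_cR hy, cosh_part hx hy hx0 hy0, cos_part hx hy hx0 hy0, ch_eq]

/-- real inequalities -/
private theorem cosh_ge (u : ℝ) : u ^ 2 / 2 ≤ Real.cosh u - 1 := by
  have h := Real.cosh_sq (u / 2)
  have h2 := Real.cosh_two_mul (u / 2)
  rw [show 2 * (u / 2) = u by ring] at h2
  have h3 : |u / 2| ≤ |Real.sinh (u / 2)| := by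
    rw [Real.abs_sinh]
    exact Real.self_le_sinh_iff.2 (abs_nonneg _)
  have h4 := sq_le_sq.2 h3
  nlinarith

private theorem cosh_le {u : ℝ} (hu : u ^ 2 ≤ 1) : Real.cosh u - 1 ≤ u ^ 2 := by
  have h1 := Real.cosh_le_exp_half_sq u
  have h0 : 0 ≤ u ^ 2 / 2 := by positivity
  have h2 := Real.abs_exp_sub_one_sub_id_le (x := u ^ 2 / 2)
    (by rw [abs_of_nonneg h0]; linarith)
  have h3 := (abs_le.1 h2).2
  have h4 : (u ^ 2 / 2) ^ 2 ≤ u ^ 2 / 2 := by nlinarith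
  linarith

private theorem cosh_exp {u : ℝ} (hu : 1 ≤ |u|) : Real.exp |u| / 8 ≤ Real.cosh u - 1 := by
  rw [← Real.cosh_abs, Real.cosh_eq]
  have h1 : Real.exp 1 ≤ Real.exp |u| := Real.exp_le_exp.2 hu
  have h2 := Real.exp_one_gt_d9
  have h3 := Real.exp_pos (-|u|)
  linarith

private theorem cos_le {v : ℝ} (hv : |v| ≤ Real.pi) : v ^ 2 / 6 ≤ 1 - Real.cos v := by
  have hp : 0 < Real.pi := Real.pi_pos
  have h7 : 2 / Real.pi * |v / 2| ≤ |Real.sin (v / 2)| := Real.mul_abs_le_abs_sin (by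
    rw [abs_div, abs_of_pos (by norm_num : (0 : ℝ) < 2)]; linarith)
  have h8 : (2 / Real.pi * |v / 2|) ^ 2 ≤ |Real.sin (v / 2)| ^ 2 :=
    pow_le_pow_left₀ (by positivity) h7 2
  rw [mul_pow, sq_abs, sq_abs] at h8
  have h9 := Real.cos_sq_add_sin_sq (v / 2)
  have h10 := Real.cos_two_mul (v / 2)
  rw [show 2 * (v / 2) = v by ring] at h10
  have h11 : (2 / Real.pi) ^ 2 * (v / 2) ^ 2 * 2 = 2 / Real.pi ^ 2 * v ^ 2 := by
    field_simp
  have h1 : Real.cos v ≤ 1 - 2 / Real.pi ^ 2 * v ^ 2 := by linarith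
  have h3 : Real.pi < 3.15 := Real.pi_lt_d2
  have h4 : Real.pi ^ 2 ≤ 12 := by nlinarith
  have h5 : 1 / 6 ≤ 2 / Real.pi ^ 2 := by
    rw [div_le_div_iff₀ (by norm_num) (by positivity)]
    linarith
  have h6 := mul_le_mul_of_nonneg_right h5 (sq_nonneg v)
  linarith

/-- **CHF** -/
theorem hCHF (hXPT : Pool.Agent.Helper88.QT.StXPT) : Pool.Agent.Helper88.QT.StCHF := by
  intro lam hlam
  refine ⟨fun x hx y hy hx0 hy0 => one hx hy hx0 hy0, ?_⟩
  intro T hT hlT x hx y hy hTx hTy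
  obtain ⟨-, H, -, -, -⟩ := hXPT lam hlam
  have hl : 0 < ‖lam‖ := norm_pos_iff.2 hlam
  obtain ⟨-, -, cx1, cx2, cx3⟩ := H x hx
  obtain ⟨-, -, -, cy2, cy3⟩ := H y hy
  rw [hTx] at cx2 cx3
  rw [hTy] at cy2 cy3
  have hx0 := cx3 (by linarith)
  have hy0 := cy3 (by linarith)
  have hlT0 : 0 < ‖lam‖ * T := by positivity
  set κ := cR x with hκ
  have hκy : cR y = κ := by
    have : cR y * (‖lam‖ * T) = κ * (‖lam‖ * T) := by rw [cy2, cx2]
    exact mul_right_cancel₀ hlT0.ne' this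
  set w := Complex.log (rd x / rd y) with hw
  have hch := one hx hy hx0 hy0
  rw [hκy, ← hw, ← hκ, Real.mul_self_sqrt (by nlinarith)] at hch
  -- `κ = 1/(|lam| T)`
  have hκ1 : κ = 1 / (‖lam‖ * T) := by
    rw [eq_div_iff hlT0.ne']; exact cx2
  have hκ2 : 2 ≤ κ := by
    rw [hκ1, le_div_iff₀ hlT0]; linarith
  have hk4 : 4 ≤ κ ^ 2 := by nlinarith
  -- `|w| = |lam| fd`
  have hfd : ‖lam‖ * fd lam (rd x) (rd y) = ‖w‖ := by
    unfold fd
    rw [← hw]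
    field_simp
  have hw2 : ‖w‖ ^ 2 = w.re ^ 2 + w.im ^ 2 := by
    rw [← Complex.normSq_eq_norm_sq, Complex.normSq_apply]
    ring
  have hfT : fd lam (rd x) (rd y) ^ 2 / T ^ 2 = κ ^ 2 * (w.re ^ 2 + w.im ^ 2) := by
    rw [← hw2, ← hfd, hκ1]
    field_simp
  have hv : |w.im| ≤ Real.pi := by
    rw [hw, Complex.log_im]
    exact Complex.abs_arg_le_pi _
  have c1 := cosh_ge w.re
  have c2 := cos_le hv
  have c3 := Real.cos_le_one w.im
  have c4 := Real.one_sub_sq_div_two_le_cos (x := w.im)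
  have e1 : ch x y - 1 = κ ^ 2 * (Real.cosh w.re - 1) + (κ ^ 2 - 1) * (1 - Real.cos w.im) := by
    rw [hch]; ring
  have hu0 : 0 ≤ w.re ^ 2 := sq_nonneg _
  have hv0 : 0 ≤ w.im ^ 2 := sq_nonneg _
  refine ⟨?_, ?_, ?_⟩
  · have e2 : fd lam (rd x) (rd y) ^ 2 / (8 * T ^ 2) = κ ^ 2 * (w.re ^ 2 + w.im ^ 2) / 8 := by
      rw [← hfT]; field_simp
    rw [e2]
    have d1 : κ ^ 2 * (w.re ^ 2 / 2) ≤ κ ^ 2 * (Real.cosh w.re - 1) :=
      mul_le_mul_of_nonneg_left c1 (by positivity)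
    have d2 : (3 / 4 * κ ^ 2) * (w.im ^ 2 / 6) ≤ (κ ^ 2 - 1) * (1 - Real.cos w.im) :=
      mul_le_mul (by linarith) c2 (by positivity) (by linarith)
    have d3 : 0 ≤ κ ^ 2 * w.re ^ 2 := by positivity
    linarith
  · intro hle
    rw [hfd] at hle
    have hn : ‖w‖ ^ 2 ≤ 1 := by
      have := norm_nonneg w
      nlinarith
    have d1 : κ ^ 2 * (Real.cosh w.re - 1) ≤ κ ^ 2 * w.re ^ 2 :=
      mul_le_mul_of_nonneg_left (cosh_le (by linarith)) (by positivity)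
    have d2 : (κ ^ 2 - 1) * (1 - Real.cos w.im) ≤ κ ^ 2 * (w.im ^ 2) :=
      mul_le_mul (by linarith) (by linarith) (by linarith) (by positivity)
    rw [hfT]
    linarith
  · intro hle
    have hu : Real.log (‖rd x‖ / ‖rd y‖) = w.re := by
      rw [hw, Complex.log_re, norm_div]
    rw [hu] at hle ⊢
    have e3 : Real.exp |w.re| / (8 * (‖lam‖ * T) ^ 2) = κ ^ 2 * (Real.exp |w.re| / 8) := by
      rw [hκ1]; field_simp
    rw [e3]
    have d1 : κ ^ 2 * (Real.exp |w.re| / 8) ≤ κ ^ 2 * (Real.cosh w.re - 1) :=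
      mul_le_mul_of_nonneg_left (cosh_exp hle) (by positivity)
    have d2 : 0 ≤ (κ ^ 2 - 1) * (1 - Real.cos w.im) :=
      mul_nonneg (by linarith) (by linarith)
    linarith

end Pool.Agent.Helper75.QT
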